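import Mathlib

set_option autoImplicit false
set_option linter.unusedSectionVars false
set_option linter.unusedVariables false
set_option linter.deprecated false

/-!
# A very lacunary set of type H and its natural measure

`n_0 = 1`, `n_(k+1) = 2 n_k q_k`; `X ω = ∑ ω_k / n_(k+1)` with digits `0 ≤ ω_k < q_k`.
-/

namespace Pool.Agent.H23.NU

open MeasureTheory Filter Topology Finset

/-- the denominators -/
def nn (q : ℕ → ℕ) : ℕ → ℕ
  | 0 => 1
  | k + 1 => 2 * nn q k * q k

/-- sequences of digits -/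
abbrev Om (q : ℕ → ℕ) : Type := ∀ k, Fin (q k)

variable (q : ℕ → ℕ) [hq : ∀ k, NeZero (q k)]

/-- the terms of the series -/
noncomputable def tm (ω : Om q) (k : ℕ) : ℝ := ((ω k : ℕ) : ℝ) / nn q (k + 1)

/-- the random point -/
noncomputable def X (ω : Om q) : ℝ := ∑' k, tm q ω k

lemma q_pos (k : ℕ) : 0 < q k := Nat.pos_of_ne_zero (NeZero.ne _)

lemma nn_pos (k : ℕ) : 0 < nn q k := by
  induction k with
  | zero => simp [nn]
  | succ k ih =>
    rw [nn]
    have := q_pos q k
    positivity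

lemma nn_posR (k : ℕ) : (0 : ℝ) < nn q k := by exact_mod_cast nn_pos q k

lemma two_pow_le_nn (k : ℕ) : 2 ^ k ≤ nn q k := by
  induction k with
  | zero => simp [nn]
  | succ k ih =>
    rw [nn, pow_succ]
    have := q_pos q k
    nlinarith

lemma nn_succ (k : ℕ) : (nn q (k + 1) : ℝ) = 2 * nn q k * q k := by rw [nn]; push_cast; ring

lemma q_le_nn (k : ℕ) : q k ≤ nn q (k + 1) := by
  rw [nn]
  have := nn_pos q k
  nlinarith

lemma nn_mono : Monotone (nn q) := by
  refine monotone_nat_of_le_succ fun k => ?_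
  rw [nn]
  have := q_pos q k
  have := nn_pos q k
  nlinarith

lemma tm_nonneg (ω : Om q) (k : ℕ) : 0 ≤ tm q ω k := by unfold tm; positivity

lemma tm_le (ω : Om q) (k : ℕ) : tm q ω k ≤ 1 / (2 * nn q k) - 1 / (2 * nn q (k + 1)) := by
  have h1 := nn_posR q k
  have h2 : (0 : ℝ) < q k := by exact_mod_cast q_pos q k
  have h3 : ((ω k : ℕ) : ℝ) ≤ q k - 1 := by
    have := (ω k).isLt
    have h : ((ω k : ℕ) : ℝ) + 1 ≤ q k := by exact_mod_cast this
    linarith
  unfold tm
  rw [nn_succ]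
  have e : 1 / (2 * (nn q k : ℝ)) - 1 / (2 * (2 * nn q k * q k)) =
      ((q k : ℝ) - 1 / 2) / (2 * nn q k * q k) := by
    field_simp
  rw [e]
  gcongr
  linarith

lemma sum_tm_le (ω : Om q) (k J : ℕ) :
    ∑ j ∈ range J, tm q ω (j + k) ≤ 1 / (2 * nn q k) - 1 / (2 * nn q (J + k)) := by
  induction J with
  | zero => simp
  | succ J ih =>
    rw [sum_range_succ]
    have := tm_le q ω (J + k)
    rw [show J + 1 + k = J + k + 1 by ring]
    linarith

lemma sum_tm_le' (ω : Om q) (k J : ℕ) :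
    ∑ j ∈ range J, tm q ω (j + k) ≤ 1 / (2 * nn q k) := by
  have h := sum_tm_le q ω k J
  have : (0 : ℝ) ≤ 1 / (2 * nn q (J + k)) := by positivity
  linarith

lemma summable_tm (ω : Om q) : Summable (tm q ω) :=
  summable_of_sum_range_le (tm_nonneg q ω) (fun n => by simpa using sum_tm_le' q ω 0 n)

lemma tail_le (ω : Om q) (k : ℕ) : ∑' j, tm q ω (j + k) ≤ 1 / (2 * nn q k) :=
  Real.tsum_le_of_sum_range_le (fun j => tm_nonneg q ω _) (fun n => sum_tm_le' q ω k n)

lemma tail_nonneg (ω : Om q) (k : ℕ) : 0 ≤ ∑' j, tm q ω (j + k) :=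
  tsum_nonneg fun j => tm_nonneg q ω _

lemma X_eq (ω : Om q) (k : ℕ) : X q ω = ∑ j ∈ range k, tm q ω j + ∑' j, tm q ω (j + k) := by
  unfold X
  rw [(summable_tm q ω).sum_add_tsum_nat_add]

/-- the integer `n_k ∑_{j < k} ω_j / n_(j+1)` -/
def M (ω : Om q) : ℕ → ℕ
  | 0 => 0
  | k + 1 => 2 * q k * M ω k + ω k

lemma M_eq (ω : Om q) (k : ℕ) : ∑ j ∈ range k, tm q ω j = (M q ω k : ℝ) / nn q k := by
  induction k with
  | zero => simp [M]
  | succ k ih =>
    rw [sum_range_succ, ih, tm, nn_succ, M]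
    have h1 := nn_posR q k
    have h2 : (0 : ℝ) < q k := by exact_mod_cast q_pos q k
    push_cast
    field_simp

lemma X_eq' (ω : Om q) (k : ℕ) : ∃ t : ℝ, 0 ≤ t ∧ t ≤ 1 / (2 * nn q k) ∧
    X q ω = (M q ω k : ℝ) / nn q k + t :=
  ⟨_, tail_nonneg q ω k, tail_le q ω k, by rw [X_eq q ω k, M_eq]⟩

lemma M_inj {ω ω' : Om q} (k : ℕ) (h : M q ω k = M q ω' k) : ∀ j < k, ω j = ω' j := by
  induction k with
  | zero => intro j hj; omega
  | succ k ih =>
    rw [M, M] at h
    have h1 := (ω k).isLt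
    have h2 := (ω' k).isLt
    have hM : M q ω k = M q ω' k := by
      have a1 : (2 * q k * M q ω k + ω k) / (2 * q k) = M q ω k := by
        rw [Nat.mul_add_div (by omega), Nat.div_eq_of_lt (by omega), add_zero]
      have a2 : (2 * q k * M q ω' k + ω' k) / (2 * q k) = M q ω' k := by
        rw [Nat.mul_add_div (by omega), Nat.div_eq_of_lt (by omega), add_zero]
      rw [← a1, h, a2]
    have hd : (ω k : ℕ) = ω' k := by rw [hM] at h; omega
    intro j hj
    rcases Nat.lt_succ_iff_lt_or_eq.1 hj with hj | rfl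
    · exact ih hM j hj
    · exact Fin.ext hd

/-- the uniform law -/
noncomputable def unif (m : ℕ) [NeZero m] : Measure (Fin m) := (PMF.uniformOfFintype (Fin m)).toMeasure

instance (m : ℕ) [NeZero m] : IsProbabilityMeasure (unif m) := by unfold unif; infer_instance

lemma unif_singleton (m : ℕ) [NeZero m] (a : Fin m) : unif m {a} = (m : ENNReal)⁻¹ := by
  unfold unif
  rw [PMF.toMeasure_apply_singleton _ _ (measurableSet_singleton a)]
  simp

/-- independent uniform digits -/
noncomputable def P : Measure (Om q) := Measure.infinitePi (fun k => unif (q k))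

instance : IsProbabilityMeasure (P q) := by unfold P; infer_instance

lemma M_prob (k m : ℕ) : P q {ω | M q ω k = m} ≤ ENNReal.ofReal (2 ^ k / nn q k) := by
  by_cases hne : ∃ ω0 : Om q, M q ω0 k = m
  · obtain ⟨ω0, h0⟩ := hne
    have hsub : {ω : Om q | M q ω k = m} ⊆ Set.pi ((range k : Finset ℕ) : Set ℕ) (fun j => {ω0 j}) := by
      intro ω hω j hj
      simp only [coe_range, Set.mem_Iio] at hj
      exact M_inj q k (hω.trans h0.symm) j hj
    refine (measure_mono hsub).trans ?_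
    rw [P, Measure.infinitePi_pi _ (fun j _ => measurableSet_singleton _)]
    have h1 : ∀ k, ∏ j ∈ range k, unif (q j) {ω0 j} = ENNReal.ofReal (2 ^ k / nn q k) := by
      intro k
      induction k with
      | zero => simp [nn]
      | succ k ih =>
        rw [prod_range_succ, ih, unif_singleton]
        have hq0 : (0 : ℝ) < q k := by exact_mod_cast q_pos q k
        have h2 : ((q k : ℕ) : ENNReal)⁻¹ = ENNReal.ofReal ((q k : ℝ)⁻¹) := by
          rw [ENNReal.ofReal_inv_of_pos hq0, ENNReal.ofReal_natCast]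
        rw [h2, ← ENNReal.ofReal_mul (by positivity)]
        congr 1
        rw [nn_succ]
        have := nn_posR q k
        field_simp
        ring
    exact (h1 k).le
  · have : {ω : Om q | M q ω k = m} = ∅ := by
      ext ω
      simp only [Set.mem_setOf_eq, Set.mem_empty_iff_false, iff_false]
      exact fun h => hne ⟨ω, h⟩
    rw [this]
    simp

lemma X_cont : Continuous (X q) := by
  unfold X
  refine continuous_tsum (u := fun k => 1 / (2 * (nn q k : ℝ)) - 1 / (2 * nn q (k + 1))) ?_ ?_ ?_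
  · intro k
    unfold tm
    refine Continuous.div_const ?_ _
    exact (continuous_of_discreteTopology (f := fun a : Fin (q k) => ((a : ℕ) : ℝ))).comp
      (continuous_apply k)
  · refine summable_of_sum_range_le (c := 1 / 2) (fun n => ?_) (fun n => ?_)
    · have h1 := nn_posR q n
      have h2 : (nn q n : ℝ) ≤ nn q (n + 1) := by exact_mod_cast nn_mono q (Nat.le_succ n)
      have : 1 / (2 * (nn q (n + 1) : ℝ)) ≤ 1 / (2 * nn q n) := by gcongr
      linarith
    · rw [sum_range_sub']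
      simp only [nn, Nat.cast_one, mul_one]
      have : (0 : ℝ) ≤ 1 / (2 * nn q n) := by positivity
      linarith
  · intro k ω
    rw [Real.norm_eq_abs, abs_of_nonneg (tm_nonneg q ω k)]
    exact tm_le q ω k

lemma X_meas : Measurable (X q) := (X_cont q).measurable

/-- **the mass of an interval** -/
lemma mass (k : ℕ) (x t : ℝ) (ht : 1 / (nn q k : ℝ) ≤ t) :
    P q {ω | X q ω ∈ Set.Icc (x - t) (x + t)} ≤ ENNReal.ofReal (4 * 2 ^ k * t) := by
  have hn := nn_posR q k
  have hnt : 1 ≤ t * nn q k := by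
    rw [div_le_iff₀ hn] at ht; exact ht
  set A : Finset ℤ := Finset.Icc ⌈(x - t) * nn q k - 1 / 2⌉ ⌊(x + t) * nn q k⌋ with hA
  have hsub : {ω | X q ω ∈ Set.Icc (x - t) (x + t)} ⊆
      ⋃ m ∈ A, {ω | M q ω k = m.toNat} := by
    intro ω hω
    obtain ⟨s, hs0, hs1, hs⟩ := X_eq' q ω k
    simp only [Set.mem_setOf_eq, Set.mem_Icc] at hω
    simp only [Set.mem_iUnion, Set.mem_setOf_eq, exists_prop]
    refine ⟨(M q ω k : ℤ), ?_, by simp⟩
    rw [hA, Finset.mem_Icc]
    have h1 : (M q ω k : ℝ) = (X q ω - s) * nn q k := by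
      rw [hs]; field_simp; ring
    have hs2 : s * nn q k ≤ 1 / 2 := by
      calc s * nn q k ≤ 1 / (2 * nn q k) * nn q k := by gcongr
        _ = 1 / 2 := by field_simp
    constructor
    · rw [Int.ceil_le]
      push_cast
      rw [h1]
      nlinarith [mul_le_mul_of_nonneg_right hω.1 hn.le]
    · rw [Int.le_floor]
      push_cast
      rw [h1]
      have := mul_le_mul_of_nonneg_right hω.2 hn.le
      have h3 := mul_nonneg hs0 hn.le
      nlinarith
  have hcard : (A.card : ℝ) ≤ 4 * t * nn q k := by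
    rw [hA, Int.card_Icc]
    have h1 : ((⌊(x + t) * nn q k⌋ + 1 - ⌈(x - t) * nn q k - 1 / 2⌉ : ℤ) : ℝ) ≤
        2 * (t * nn q k) + 3 / 2 := by
      push_cast
      have := Int.floor_le ((x + t) * nn q k)
      have := Int.le_ceil ((x - t) * (nn q k : ℝ) - 1 / 2)
      nlinarith
    have h2 : (((⌊(x + t) * nn q k⌋ + 1 - ⌈(x - t) * nn q k - 1 / 2⌉).toNat : ℕ) : ℝ) ≤
        max (2 * (t * nn q k) + 3 / 2) 0 := by
      rcases le_or_gt 0 (⌊(x + t) * nn q k⌋ + 1 - ⌈(x - t) * nn q k - 1 / 2⌉) with h | h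
      · have : (((⌊(x + t) * nn q k⌋ + 1 - ⌈(x - t) * nn q k - 1 / 2⌉).toNat : ℤ) : ℝ) =
            ((⌊(x + t) * nn q k⌋ + 1 - ⌈(x - t) * nn q k - 1 / 2⌉ : ℤ) : ℝ) := by
          rw [Int.toNat_of_nonneg h]
        have h3 : (((⌊(x + t) * nn q k⌋ + 1 - ⌈(x - t) * nn q k - 1 / 2⌉).toNat : ℕ) : ℝ) =
            ((⌊(x + t) * nn q k⌋ + 1 - ⌈(x - t) * nn q k - 1 / 2⌉ : ℤ) : ℝ) := by
          rw [← this]; push_cast; rfl
        rw [h3]
        exact h1.trans (le_max_left _ _)
      · rw [Int.toNat_of_nonpos h.le]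
        simp
    refine h2.trans ?_
    rw [max_le_iff]
    constructor
    · nlinarith
    · have : 0 ≤ t := by
        have : 0 < t * nn q k := by linarith
        exact (pos_of_mul_pos_left this hn.le).le
      positivity
  calc P q {ω | X q ω ∈ Set.Icc (x - t) (x + t)}
      ≤ P q (⋃ m ∈ A, {ω | M q ω k = m.toNat}) := measure_mono hsub
    _ ≤ ∑ m ∈ A, P q {ω | M q ω k = m.toNat} := measure_biUnion_finset_le _ _
    _ ≤ ∑ _m ∈ A, ENNReal.ofReal (2 ^ k / nn q k) := sum_le_sum fun m _ => M_prob q k _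
    _ = ENNReal.ofReal (A.card * (2 ^ k / nn q k)) := by
        rw [sum_const, nsmul_eq_mul, ENNReal.ofReal_mul (by positivity), ENNReal.ofReal_natCast]
    _ ≤ ENNReal.ofReal (4 * 2 ^ k * t) := by
        apply ENNReal.ofReal_le_ofReal
        calc (A.card : ℝ) * (2 ^ k / nn q k) ≤ (4 * t * nn q k) * (2 ^ k / nn q k) := by gcongr
          _ = 4 * 2 ^ k * t := by field_simp

end Pool.Agent.H23.NU
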