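import Pool.Agent.H23.NU.Four

set_option autoImplicit false
set_option linter.unusedSectionVars false
set_option linter.unusedVariables false
set_option linter.deprecated false

/-!
# Almost all points of the natural measure are absolutely normal
-/

namespace Pool.Agent.H23.NU

open MeasureTheory Filter Topology Finset
open Pool.Agent.H493R3 (ee ee_norm ee_add ee_neg ee_int)

variable (q : ℕ → ℕ) [hq : ∀ k, NeZero (q k)]

/-- Weyl sums -/
noncomputable def W (b h N : ℕ) (ω : Om q) : ℝ :=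
  ‖∑ j ∈ range N, ee (h * (X q ω * (b : ℝ) ^ j))‖

lemma W_cont (b h N : ℕ) : Continuous (W q b h N) := by
  unfold W
  refine (continuous_finset_sum _ fun j _ => ee_cont.comp ?_).norm
  exact continuous_const.mul ((X_cont q).mul continuous_const)

lemma W_nonneg (b h N : ℕ) (ω : Om q) : 0 ≤ W q b h N ω := norm_nonneg _

lemma W_le (b h N : ℕ) (ω : Om q) : W q b h N ω ≤ N := by
  unfold W
  refine (norm_sum_le _ _).trans ?_
  simp [ee_norm]

lemma W_sq (b h N : ℕ) (ω : Om q) : (((W q b h N ω) ^ 2 : ℝ) : ℂ) =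
    ∑ i ∈ range N, ∑ j ∈ range N, ee (h * ((b : ℝ) ^ i - (b : ℝ) ^ j) * X q ω) := by
  unfold W
  rw [← Complex.normSq_eq_norm_sq, ← Complex.mul_conj, map_sum, sum_mul_sum]
  refine sum_congr rfl fun i _ => sum_congr rfl fun j _ => ?_
  rw [← ee_neg, ← ee_add]
  congr 1
  ring

lemma sq_int (b h N : ℕ) : ∫ ω, (W q b h N ω) ^ 2 ∂(P q) ≤
    ∑ i ∈ range N, ∑ j ∈ range N, ‖hat q (h * ((b : ℝ) ^ i - (b : ℝ) ^ j))‖ := by
  have h1 : ((∫ ω, (W q b h N ω) ^ 2 ∂(P q) : ℝ) : ℂ) =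
      ∑ i ∈ range N, ∑ j ∈ range N, hat q (h * ((b : ℝ) ^ i - (b : ℝ) ^ j)) := by
    refine (integral_ofReal (𝕜 := ℂ) (f := fun ω => (W q b h N ω) ^ 2) (μ := P q)).symm.trans ?_
    have hint : ∀ ξ : ℝ, Integrable (fun ω => ee (ξ * X q ω)) (P q) := by
      intro ξ
      refine Integrable.of_bound
        (ee_cont.comp (continuous_const.mul (X_cont q))).measurable.aestronglyMeasurable 1 ?_
      exact Eventually.of_forall fun ω => (ee_norm _).le
    have e : ∀ ω, ((((W q b h N ω) ^ 2 : ℝ)) : ℂ) =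
        ∑ i ∈ range N, ∑ j ∈ range N, ee (h * ((b : ℝ) ^ i - (b : ℝ) ^ j) * X q ω) :=
      W_sq q b h N
    calc ∫ ω, ((((W q b h N ω) ^ 2 : ℝ)) : ℂ) ∂(P q)
        = ∫ ω, ∑ i ∈ range N, ∑ j ∈ range N, ee (h * ((b : ℝ) ^ i - (b : ℝ) ^ j) * X q ω) ∂(P q) := by
          congr 1; ext1 ω; exact e ω
      _ = _ := by
          rw [integral_finset_sum _ (fun i _ => integrable_finset_sum _ fun j _ => hint _)]
          refine sum_congr rfl fun i _ => ?_
          rw [integral_finset_sum _ (fun j _ => hint _)]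
          rfl
  have h2 : 0 ≤ ∫ ω, (W q b h N ω) ^ 2 ∂(P q) := integral_nonneg fun ω => by positivity
  have h3 : ∫ ω, (W q b h N ω) ^ 2 ∂(P q) = ‖((∫ ω, (W q b h N ω) ^ 2 ∂(P q) : ℝ) : ℂ)‖ := by
    rw [Complex.norm_real, Real.norm_eq_abs, abs_of_nonneg h2]
  rw [h3, h1]
  refine (norm_sum_le _ _).trans (sum_le_sum fun i _ => norm_sum_le _ _)

lemma ex_k (b h i : ℕ) : ∃ k, 2 * h * b ^ i ≤ nn q (k + 1) := by
  refine ⟨2 * h * b ^ i, ?_⟩
  have h1 := two_pow_le_nn q (2 * h * b ^ i + 1)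
  have h2 : 2 * h * b ^ i + 1 < 2 ^ (2 * h * b ^ i + 1) := Nat.lt_two_pow_self
  omega

open Classical in
/-- the block of the frequency -/
noncomputable def kk (b h i : ℕ) : ℕ := Nat.find (ex_k q b h i)

lemma kk_spec (b h i : ℕ) : 2 * h * b ^ i ≤ nn q (kk q b h i + 1) := by
  classical
  exact Nat.find_spec (ex_k q b h i)

lemma kk_min (b h i k : ℕ) (hk : 2 * h * b ^ i ≤ nn q (k + 1)) : kk q b h i ≤ k := by
  classical
  exact Nat.find_min' (ex_k q b h i) hk

lemma kk_lt (b h i : ℕ) (hb : 1 ≤ b) (hh : 1 ≤ h) : nn q (kk q b h i) < 2 * h * b ^ i := by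
  rcases Nat.eq_zero_or_pos (kk q b h i) with h0 | h0
  · rw [h0]
    have : 1 ≤ b ^ i := Nat.one_le_pow _ _ hb
    simp only [nn]
    nlinarith
  · by_contra hc
    push Not at hc
    have := kk_min q b h i (kk q b h i - 1) (by rwa [Nat.sub_add_cancel h0])
    omega

lemma kk_mono (b h i : ℕ) (hb : 1 ≤ b) : kk q b h i ≤ kk q b h (i + 1) := by
  apply kk_min
  refine le_trans ?_ (kk_spec q b h (i + 1))
  gcongr
  omega

/-- the bound for the Fourier coefficients -/
noncomputable def g (b h i : ℕ) : ℝ := 2 * nn q (kk q b h i) / (h * (b : ℝ) ^ i)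

lemma g_nonneg (b h i : ℕ) : 0 ≤ g q b h i := by unfold g; positivity

lemma g_lt (b h i : ℕ) (hb : 1 ≤ b) (hh : 1 ≤ h) : g q b h i ≤ 4 := by
  unfold g
  have h1 : (nn q (kk q b h i) : ℝ) ≤ 2 * h * (b : ℝ) ^ i := by exact_mod_cast (kk_lt q b h i hb hh).le
  have h2 : (0 : ℝ) < h * (b : ℝ) ^ i := by
    have : (0 : ℝ) < b := by exact_mod_cast hb
    have : (0 : ℝ) < h := by exact_mod_cast hh
    positivity
  rw [div_le_iff₀ h2]
  linarith

lemma g_half (b h i : ℕ) (hb : 2 ≤ b) (hh : 1 ≤ h) (he : kk q b h (i + 1) = kk q b h i) :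
    2 * g q b h (i + 1) ≤ g q b h i := by
  unfold g
  rw [he]
  have hb' : (2 : ℝ) ≤ b := by exact_mod_cast hb
  have hh' : (0 : ℝ) < h := by exact_mod_cast hh
  have h2 : (0 : ℝ) < h * (b : ℝ) ^ i := by positivity
  rw [pow_succ, ← mul_div_assoc, div_le_div_iff₀ (by positivity) h2]
  have h3 : (0 : ℝ) ≤ 2 * nn q (kk q b h i) * (h * (b : ℝ) ^ i) := by positivity
  nlinarith

lemma sum_g (b h i : ℕ) (hb : 2 ≤ b) (hh : 1 ≤ h) :
    ∑ j ∈ range (i + 1), g q b h j + g q b h i ≤ 8 * ((kk q b h i : ℝ) + 1) := by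
  induction i with
  | zero =>
    simp only [zero_add, sum_range_one]
    have := g_lt q b h 0 (by omega) hh
    have : (0 : ℝ) ≤ kk q b h 0 := by positivity
    linarith
  | succ i ih =>
    rw [sum_range_succ]
    rcases (kk_mono q b h i (by omega)).eq_or_lt with he | hl
    · have := g_half q b h i hb hh he.symm
      rw [← he]
      linarith
    · have h1 := g_lt q b h (i + 1) (by omega) hh
      have h2 : (kk q b h i : ℝ) + 1 ≤ kk q b h (i + 1) := by exact_mod_cast hl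
      have h3 := g_nonneg q b h i
      linarith

lemma hat_bd (b h i j : ℕ) (hb : 2 ≤ b) (hh : 1 ≤ h) (hj : j < i) :
    ‖hat q (h * ((b : ℝ) ^ i - (b : ℝ) ^ j))‖ ≤ g q b h i := by
  have hb' : (2 : ℝ) ≤ b := by exact_mod_cast hb
  have hh' : (0 : ℝ) < h := by exact_mod_cast hh
  have hbj : (0 : ℝ) < (b : ℝ) ^ j := by positivity
  have h1 : 2 * (b : ℝ) ^ j ≤ (b : ℝ) ^ i := by
    calc 2 * (b : ℝ) ^ j ≤ b * (b : ℝ) ^ j := by gcongr
      _ = (b : ℝ) ^ (j + 1) := by ring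
      _ ≤ (b : ℝ) ^ i := pow_le_pow_right₀ (by linarith) hj
  have hpos : 0 < (h : ℝ) * ((b : ℝ) ^ i - (b : ℝ) ^ j) := mul_pos hh' (by linarith)
  have h2 := hat_le q (kk q b h i) (h * ((b : ℝ) ^ i - (b : ℝ) ^ j)) hpos.ne' (by
    rw [abs_of_pos hpos]
    have h3 : (2 * h * b ^ i : ℝ) ≤ nn q (kk q b h i + 1) := by exact_mod_cast kk_spec q b h i
    nlinarith)
  refine h2.trans ?_
  rw [abs_of_pos hpos]
  unfold g
  rw [div_le_div_iff₀ hpos (by positivity)]
  have h4 : (0 : ℝ) < nn q (kk q b h i) := nn_posR q _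
  have h5 : (h : ℝ) * (b : ℝ) ^ i ≤ 2 * (h * ((b : ℝ) ^ i - (b : ℝ) ^ j)) := by nlinarith
  nlinarith [mul_le_mul_of_nonneg_left h5 h4.le]

/-- the second moment -/
lemma second (b h N : ℕ) (hb : 2 ≤ b) (hh : 1 ≤ h) :
    ∫ ω, (W q b h N ω) ^ 2 ∂(P q) ≤ N * (17 + 16 * (kk q b h N : ℝ)) := by
  refine (sq_int q b h N).trans ?_
  have h1 : ∀ i j, ‖hat q (h * ((b : ℝ) ^ i - (b : ℝ) ^ j))‖ ≤
      (if i = j then 1 else 0) + g q b h i + g q b h j := by
    intro i j
    have hi := g_nonneg q b h i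
    have hj := g_nonneg q b h j
    rcases lt_trichotomy i j with hl | rfl | hl
    · rw [if_neg hl.ne, ← hat_neg, show -((h : ℝ) * ((b : ℝ) ^ i - (b : ℝ) ^ j)) =
        h * ((b : ℝ) ^ j - (b : ℝ) ^ i) by ring]
      have := hat_bd q b h j i hb hh hl
      linarith
    · rw [if_pos rfl]
      have := norm_hat_le q (h * ((b : ℝ) ^ i - (b : ℝ) ^ i))
      linarith
    · rw [if_neg hl.ne']
      have := hat_bd q b h i j hb hh hl
      linarith
  have h2 : ∑ i ∈ range N, g q b h i ≤ 8 * ((kk q b h N : ℝ) + 1) := by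
    have := sum_g q b h N hb hh
    rw [sum_range_succ] at this
    have := g_nonneg q b h N
    linarith
  calc ∑ i ∈ range N, ∑ j ∈ range N, ‖hat q (h * ((b : ℝ) ^ i - (b : ℝ) ^ j))‖
      ≤ ∑ i ∈ range N, ∑ j ∈ range N, ((if i = j then 1 else 0) + g q b h i + g q b h j) :=
        sum_le_sum fun i _ => sum_le_sum fun j _ => h1 i j
    _ = N + 2 * N * ∑ i ∈ range N, g q b h i := by
        have e : ∀ i ∈ range N, ∑ j ∈ range N, (((if i = j then 1 else 0) : ℝ) + g q b h i + g q b h j) =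
            1 + N * g q b h i + ∑ j ∈ range N, g q b h j := by
          intro i hi
          rw [sum_add_distrib, sum_add_distrib, sum_ite_eq, if_pos hi, sum_const, card_range,
            nsmul_eq_mul]
        rw [sum_congr rfl e, sum_add_distrib, sum_add_distrib, ← mul_sum]
        simp only [sum_const, card_range, nsmul_eq_mul, mul_one]
        ring
    _ ≤ N + 2 * N * (8 * ((kk q b h N : ℝ) + 1)) := by gcongr
    _ = _ := by ring

/-- the growth condition -/
def Gr (q : ℕ → ℕ) : Prop := ∀ k, 2 ^ ((k + 1) ^ 4) ≤ q k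

lemma kk_sq (hG : Gr q) (b h j : ℕ) (hb : 2 ≤ b) (hh : 1 ≤ h) (hj : 1 ≤ j) :
    kk q b h (j ^ 2) ≤ (2 * h + b) * (Nat.sqrt j + 1) := by
  set A := 2 * h + b with hA
  set s := Nat.sqrt j + 1 with hs
  have hAs : 1 ≤ A * s := Nat.mul_pos (by omega) (by omega)
  refine (kk_min q b h (j ^ 2) (A * s - 1) ?_).trans (Nat.sub_le _ _)
  rw [Nat.sub_add_cancel hAs]
  have h1 : 2 ^ ((A * s) ^ 4) ≤ nn q (A * s) := by
    have h2 := hG (A * s - 1)
    rw [Nat.sub_add_cancel hAs] at h2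
    refine h2.trans ?_
    have := q_le_nn q (A * s - 1)
    rwa [Nat.sub_add_cancel hAs] at this
  refine le_trans ?_ h1
  have h3 : j < s ^ 2 := by
    have := Nat.lt_succ_sqrt j
    rw [hs]; rw [pow_two]; exact this
  have h4 : A * j ^ 2 ≤ (A * s) ^ 4 := by
    have h5 : j ^ 2 ≤ s ^ 4 := by
      calc j ^ 2 ≤ (s ^ 2) ^ 2 := Nat.pow_le_pow_left h3.le 2
        _ = s ^ 4 := by ring
    calc A * j ^ 2 ≤ A ^ 4 * s ^ 4 := Nat.mul_le_mul (Nat.le_self_pow (by norm_num) A) h5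
      _ = (A * s) ^ 4 := by ring
  calc 2 * h * b ^ (j ^ 2) ≤ 2 ^ (2 * h) * (2 ^ b) ^ (j ^ 2) := by
        gcongr
        · exact Nat.lt_two_pow_self.le
        · exact Nat.lt_two_pow_self.le
    _ = 2 ^ (2 * h + b * j ^ 2) := by rw [← pow_mul, ← pow_add]
    _ ≤ 2 ^ (A * j ^ 2) := by
        apply Nat.pow_le_pow_right (by norm_num)
        have : 1 ≤ j ^ 2 := Nat.one_le_pow _ _ hj
        rw [hA]
        nlinarith
    _ ≤ _ := Nat.pow_le_pow_right (by norm_num) h4

/-- integrals with a finite sum -/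
lemma ae_tendsto {Ω : Type*} [MeasurableSpace Ω] (μ : Measure Ω) (f : ℕ → Ω → ℝ)
    (hf0 : ∀ j ω, 0 ≤ f j ω) (hm : ∀ j, Measurable (f j)) (hi : ∀ j, Integrable (f j) μ)
    (a : ℕ → ℝ) (ha : Summable a) (h : ∀ j, ∫ ω, f j ω ∂μ ≤ a j) :
    ∀ᵐ ω ∂μ, Tendsto (fun j => f j ω) atTop (𝓝 0) := by
  have h1 : ∫⁻ ω, ∑' j, ENNReal.ofReal (f j ω) ∂μ ≠ ⊤ := by
    rw [lintegral_tsum (fun j => (hm j).ennreal_ofReal.aemeasurable)]
    have e : ∀ j, ∫⁻ ω, ENNReal.ofReal (f j ω) ∂μ = ENNReal.ofReal (∫ ω, f j ω ∂μ) := fun j =>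
      (ofReal_integral_eq_lintegral_ofReal (hi j) (Eventually.of_forall (hf0 j))).symm
    simp_rw [e]
    have h2 : ∀ j, 0 ≤ a j := fun j => (integral_nonneg (hf0 j)).trans (h j)
    refine ne_top_of_le_ne_top ?_ (ENNReal.tsum_le_tsum fun j => ENNReal.ofReal_le_ofReal (h j))
    exact ha.tsum_ofReal_ne_top
  have h3 := ae_lt_top (Measurable.tsum fun j => (hm j).ennreal_ofReal) h1
  filter_upwards [h3] with ω hω
  have h4 := ENNReal.tendsto_atTop_zero_of_tsum_ne_top hω.ne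
  have h5 := (ENNReal.tendsto_toReal (by simp : (0 : ENNReal) ≠ ⊤)).comp h4
  simp only [ENNReal.toReal_zero] at h5
  refine h5.congr fun j => ?_
  simp only [Function.comp_apply]
  rw [ENNReal.toReal_ofReal (hf0 j ω)]

lemma W_split (b h m N : ℕ) (ω : Om q) (hm : m ≤ N) : W q b h N ω ≤ W q b h m ω + (N - m : ℝ) := by
  unfold W
  rw [← sum_range_add_sum_Ico _ hm]
  refine (norm_add_le _ _).trans ?_
  gcongr
  refine (norm_sum_le _ _).trans ?_
  simp only [ee_norm, sum_const, Nat.card_Ico, nsmul_eq_mul, mul_one]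
  rw [Nat.cast_sub hm]

/-- **the Weyl sums are small almost surely** -/
theorem weyl_ae (hG : Gr q) : ∀ᵐ ω ∂(P q), ∀ b : ℕ, 2 ≤ b → ∀ h : ℕ, 1 ≤ h →
    Tendsto (fun N : ℕ => W q b h N ω / N) atTop (𝓝 0) := by
  rw [ae_all_iff]
  intro b
  by_cases hb : 2 ≤ b
  swap
  · exact Eventually.of_forall fun ω h => absurd h hb
  have key : ∀ᵐ ω ∂(P q), ∀ h : ℕ, 1 ≤ h → Tendsto (fun N : ℕ => W q b h N ω / N) atTop (𝓝 0) := by
    rw [ae_all_iff]
    intro h
    by_cases hh : 1 ≤ h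
    swap
    · exact Eventually.of_forall fun ω h' => absurd h' hh
    set A : ℝ := 2 * h + b with hA
    have hA0 : 0 ≤ A := by positivity
    have h1 := ae_tendsto (P q) (fun j ω => (W q b h (j ^ 2) ω / (j : ℝ) ^ 2) ^ 2)
      (fun j ω => by positivity)
      (fun j => (((W_cont q b h (j ^ 2)).div_const _).pow 2).measurable)
      (fun j => by
        refine Integrable.of_bound
          (((W_cont q b h (j ^ 2)).div_const _).pow 2).measurable.aestronglyMeasurable 1 ?_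
        refine Eventually.of_forall fun ω => ?_
        rw [Real.norm_eq_abs, abs_of_nonneg (by positivity)]
        have h2 := W_le q b h (j ^ 2) ω
        have h3 := W_nonneg q b h (j ^ 2) ω
        push_cast at h2
        have h4 : W q b h (j ^ 2) ω / (j : ℝ) ^ 2 ≤ 1 := div_le_one_of_le₀ h2 (by positivity)
        have h5 : 0 ≤ W q b h (j ^ 2) ω / (j : ℝ) ^ 2 := by positivity
        nlinarith)
      (fun j => (17 + 32 * A) * (1 / (j : ℝ) ^ (3 / 2 : ℝ)))
      ((Real.summable_one_div_nat_rpow.2 (by norm_num)).mul_left _)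
      (fun j => by
        rcases Nat.eq_zero_or_pos j with rfl | hj
        · simp
        have hjR : (1 : ℝ) ≤ j := by exact_mod_cast hj
        have h2 := second q b h (j ^ 2) hb hh
        have h3 : (kk q b h (j ^ 2) : ℝ) ≤ A * (Nat.sqrt j + 1) := by
          have := kk_sq q hG b h j hb hh hj
          rw [hA]
          exact_mod_cast this
        have h4 : ((Nat.sqrt j : ℕ) : ℝ) ≤ Real.sqrt j := Real.nat_sqrt_le_real_sqrt
        have h5 : 1 ≤ Real.sqrt j := by
          rw [Real.one_le_sqrt]; exact hjR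
        have e1 : ∫ ω, (W q b h (j ^ 2) ω / (j : ℝ) ^ 2) ^ 2 ∂(P q) =
            (∫ ω, (W q b h (j ^ 2) ω) ^ 2 ∂(P q)) / (j : ℝ) ^ 4 := by
          rw [← integral_div]
          congr 1
          ext1 ω
          rw [div_pow]
          ring
        rw [e1]
        have e2 : (j : ℝ) ^ (3 / 2 : ℝ) * Real.sqrt j = (j : ℝ) ^ 2 := by
          rw [Real.sqrt_eq_rpow, ← Real.rpow_add (by linarith)]
          norm_num
        have h6 : 0 < (j : ℝ) ^ (3 / 2 : ℝ) := by positivity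
        have h7 : (∫ ω, (W q b h (j ^ 2) ω) ^ 2 ∂(P q)) ≤
            (j : ℝ) ^ 2 * ((17 + 32 * A) * Real.sqrt j) := by
          refine h2.trans ?_
          push_cast
          gcongr
          have h8 : A * ((Nat.sqrt j : ℝ) + 1) ≤ A * (2 * Real.sqrt j) := by gcongr; linarith
          nlinarith
        rw [div_le_iff₀ (by positivity)]
        refine h7.trans (le_of_eq ?_)
        rw [show (j : ℝ) ^ 4 = (j : ℝ) ^ 2 * (j : ℝ) ^ 2 by ring, ← e2]
        field_simp)
    filter_upwards [h1] with ω hω _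
    -- along squares
    have h2 : Tendsto (fun j : ℕ => W q b h (j ^ 2) ω / (j : ℝ) ^ 2) atTop (𝓝 0) := by
      have h3 := (Real.continuous_sqrt.tendsto 0).comp hω
      rw [Real.sqrt_zero] at h3
      refine h3.congr fun j => ?_
      simp only [Function.comp_apply]
      rw [Real.sqrt_sq]
      exact div_nonneg (W_nonneg _ _ _ _ _) (by positivity)
    have hsq : Tendsto Nat.sqrt atTop atTop :=
      tendsto_atTop_atTop.2 fun B => ⟨B * B, fun a ha => Nat.le_sqrt.2 ha⟩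
    have h4 := h2.comp hsq
    have h5 : Tendsto (fun N : ℕ => 2 / ((Nat.sqrt N : ℕ) : ℝ)) atTop (𝓝 0) :=
      (tendsto_const_div_atTop_nhds_zero_nat 2).comp hsq
    have h6 := h4.add h5
    rw [add_zero] at h6
    refine squeeze_zero' (Eventually.of_forall fun N => by
      exact div_nonneg (W_nonneg _ _ _ _ _) (by positivity)) ?_ h6
    filter_upwards [eventually_ge_atTop 1] with N hN
    simp only [Function.comp_apply]
    set s := Nat.sqrt N with hs
    have hs1 : 1 ≤ s := Nat.le_sqrt.2 (by omega)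
    have hsN : s ^ 2 ≤ N := by rw [pow_two]; exact Nat.sqrt_le N
    have hNs : N ≤ s ^ 2 + 2 * s := by
      have := Nat.sqrt_le_add N
      rw [← hs] at this
      rw [pow_two]; omega
    have h7 := W_split q b h (s ^ 2) N ω hsN
    have hsR : (1 : ℝ) ≤ s := by exact_mod_cast hs1
    have hNR : (s : ℝ) ^ 2 ≤ N := by exact_mod_cast hsN
    have hNR2 : (N : ℝ) ≤ (s : ℝ) ^ 2 + 2 * s := by exact_mod_cast hNs
    have h8 : W q b h N ω ≤ W q b h (s ^ 2) ω + 2 * s := by
      refine h7.trans ?_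
      push_cast
      linarith
    have h9 := W_nonneg q b h (s ^ 2) ω
    calc W q b h N ω / N ≤ (W q b h (s ^ 2) ω + 2 * s) / N := by gcongr
      _ ≤ (W q b h (s ^ 2) ω + 2 * s) / (s : ℝ) ^ 2 := by
          apply div_le_div_of_nonneg_left (by positivity) (by positivity) hNR
      _ = _ := by
          field_simp
  filter_upwards [key] with ω hω _
  exact hω

end Pool.Agent.H23.NU
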