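import Pool.Agent.H23.NU.Base
import Pool.Graph.R_seed8.H493R3.Digits

set_option autoImplicit false
set_option linter.unusedSectionVars false
set_option linter.unusedVariables false
set_option linter.deprecated false

/-!
# The Fourier coefficients of the natural measure
-/

namespace Pool.Agent.H23.NU

open MeasureTheory Filter Topology Finset
open Pool.Agent.H493R3 (ee ee_norm ee_add ee_neg ee_int)

variable (q : ℕ → ℕ) [hq : ∀ k, NeZero (q k)]

lemma unif_map (m : ℕ) [NeZero m] (c : Fin m) : (unif m).map (fun a => a + c) = unif m := by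
  refine Measure.ext_of_singleton fun b => ?_
  rw [Measure.map_apply (measurable_of_countable _) (measurableSet_singleton b)]
  have : (fun a : Fin m => a + c) ⁻¹' {b} = {b - c} := by
    ext a
    simp only [Set.mem_preimage, Set.mem_singleton_iff]
    exact ⟨fun h => by rw [← h, add_sub_cancel_right], fun h => by rw [h, sub_add_cancel]⟩
  rw [this, unif_singleton, unif_singleton]

/-- translation invariance -/
lemma P_add (v : Om q) : (P q).map (fun ω => ω + v) = P q := by
  unfold P
  have h := Measure.infinitePi_map_pi (μ := fun k => unif (q k))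
    (f := fun k (a : Fin (q k)) => a + v k) (fun k => measurable_of_countable _)
  have e : (fun (ω : Om q) => ω + v) = (fun (x : Om q) i => x i + v i) := rfl
  rw [e, h]
  congr 1
  ext1 k
  exact unif_map (q k) (v k)

lemma add_meas (v : Om q) : Measurable (fun ω : Om q => ω + v) :=
  measurable_pi_lambda _ fun k => (measurable_of_countable (fun a : Fin (q k) => a + v k)).comp
    (measurable_pi_apply k)

lemma X_add (ω : Om q) (k : ℕ) (a : Fin (q k)) :
    X q (ω + Pi.single k a) = (X q ω - tm q ω k) + (((ω k + a : Fin (q k)) : ℕ) : ℝ) / nn q (k + 1) := by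
  have h1 : ∀ j, tm q (ω + Pi.single k a) j = tm q ω j +
      (if j = k then (((ω k + a : Fin (q k)) : ℕ) : ℝ) / nn q (k + 1) - tm q ω k else 0) := by
    intro j
    by_cases hj : j = k
    · subst hj
      simp [tm]
    · simp [tm, hj, Pi.single_eq_of_ne hj]
  have h2 : HasSum (fun j => if j = k then (((ω k + a : Fin (q k)) : ℕ) : ℝ) / nn q (k + 1) - tm q ω k
      else 0) ((((ω k + a : Fin (q k)) : ℕ) : ℝ) / nn q (k + 1) - tm q ω k) := hasSum_ite_eq k _
  have h3 : X q (ω + Pi.single k a) = X q ω +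
      ((((ω k + a : Fin (q k)) : ℕ) : ℝ) / nn q (k + 1) - tm q ω k) := by
    unfold X
    simp_rw [h1]
    rw [((summable_tm q ω).tsum_add h2.summable), h2.tsum_eq]
  rw [h3]
  ring

lemma ee_cont : Continuous ee := by unfold Pool.Agent.H493R3.ee; fun_prop

lemma ee_zero : ee 0 = 1 := by simpa using ee_int 0

/-- the Fourier coefficient -/
noncomputable def hat (ξ : ℝ) : ℂ := ∫ ω, ee (ξ * X q ω) ∂(P q)

lemma norm_hat_le (ξ : ℝ) : ‖hat q ξ‖ ≤ 1 := by
  unfold hat
  refine (norm_integral_le_integral_norm _).trans ?_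
  simp [ee_norm]

lemma hat_neg (ξ : ℝ) : ‖hat q (-ξ)‖ = ‖hat q ξ‖ := by
  unfold hat
  have : ∀ ω, ee (-ξ * X q ω) = (starRingEnd ℂ) (ee (ξ * X q ω)) := by
    intro ω
    rw [neg_mul, ee_neg]
  simp_rw [this]
  rw [integral_conj, RCLike.norm_conj]

lemma ee_mul_nat (y : ℝ) (a : ℕ) : ee (y * a) = ee y ^ a := by
  induction a with
  | zero => simp [ee_zero]
  | succ a ih =>
    rw [pow_succ, ← ih, ← ee_add]
    congr 1
    push_cast
    ring

lemma one_sub_ee (y : ℝ) (hy : |y| ≤ 1 / 2) : 4 * |y| ≤ ‖ee y - 1‖ := by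
  have h1 : ee y = Complex.exp (Complex.I * ((2 * Real.pi * y : ℝ) : ℂ)) := by
    unfold Pool.Agent.H493R3.ee
    congr 1
    push_cast
    ring
  rw [h1, Complex.norm_exp_I_mul_ofReal_sub_one, show 2 * Real.pi * y / 2 = Real.pi * y by ring,
    Real.norm_eq_abs, abs_mul, abs_of_pos (by norm_num : (0 : ℝ) < 2)]
  have h2 : |Real.sin (Real.pi * y)| = Real.sin (Real.pi * |y|) := by
    rcases le_or_gt 0 y with h | h
    · rw [abs_of_nonneg h] at hy ⊢
      rw [abs_of_nonneg]
      exact Real.sin_nonneg_of_nonneg_of_le_pi (by positivity) (by nlinarith [Real.pi_pos])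
    · rw [abs_of_neg h] at hy ⊢
      rw [show Real.pi * y = -(Real.pi * -y) by ring, Real.sin_neg, abs_neg, abs_of_nonneg]
      exact Real.sin_nonneg_of_nonneg_of_le_pi (mul_nonneg Real.pi_pos.le (by linarith))
        (by nlinarith [Real.pi_pos])
  rw [h2]
  have h3 := Real.mul_le_sin (x := Real.pi * |y|) (by positivity) (by nlinarith [Real.pi_pos])
  have h4 : 2 / Real.pi * (Real.pi * |y|) = 2 * |y| := by
    field_simp
  rw [h4] at h3
  linarith

lemma geom (y : ℝ) (hy : |y| ≤ 1 / 2) (hy0 : y ≠ 0) (m : ℕ) :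
    ‖∑ a ∈ range m, ee (y * a)‖ ≤ 1 / (2 * |y|) := by
  simp_rw [ee_mul_nat]
  have h1 := one_sub_ee y hy
  have h0 : 0 < |y| := abs_pos.2 hy0
  have hne : ee y ≠ 1 := by
    intro h
    rw [h, sub_self, norm_zero] at h1
    linarith
  rw [geom_sum_eq hne, norm_div]
  have h2 : ‖ee y ^ m - 1‖ ≤ 2 := by
    refine (norm_sub_le _ _).trans ?_
    rw [norm_pow, ee_norm]
    norm_num
  rw [div_le_div_iff₀ (by linarith) (by positivity)]
  nlinarith [norm_nonneg (ee y ^ m - 1)]

/-- **decay of the Fourier coefficients** -/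
lemma hat_le (k : ℕ) (ξ : ℝ) (h0 : ξ ≠ 0) (h : 2 * |ξ| ≤ nn q (k + 1)) :
    ‖hat q ξ‖ ≤ nn q k / |ξ| := by
  have hn := nn_posR q (k + 1)
  have hnk := nn_posR q k
  have hq0 : (0 : ℝ) < q k := by exact_mod_cast q_pos q k
  set F : Om q → ℂ := fun ω => ee (ξ * X q ω) with hF
  have hFc : Continuous F := ee_cont.comp (continuous_const.mul (X_cont q))
  have hFm : Measurable F := hFc.measurable
  have hint : ∀ v : Om q, Integrable (fun ω => F (ω + v)) (P q) := by
    intro v
    refine Integrable.of_bound (hFm.comp (add_meas q v)).aestronglyMeasurable 1 ?_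
    exact Eventually.of_forall fun ω => (ee_norm _).le
  have h1 : ∀ a : Fin (q k), ∫ ω, F (ω + Pi.single k a) ∂(P q) = hat q ξ := by
    intro a
    have := integral_map (μ := P q) (add_meas q (Pi.single k a)).aemeasurable (f := F)
      (by rw [P_add]; exact hFm.aestronglyMeasurable)
    rw [P_add] at this
    rw [← this]
    rfl
  have h2 : (q k : ℂ) * hat q ξ = ∫ ω, ∑ a : Fin (q k), F (ω + Pi.single k a) ∂(P q) := by
    rw [integral_finset_sum _ (fun a _ => hint _)]
    simp_rw [h1]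
    simp
  have h3 : ∀ ω : Om q, ∑ a : Fin (q k), F (ω + Pi.single k a) =
      ee (ξ * (X q ω - tm q ω k)) * ∑ a ∈ range (q k), ee (ξ / nn q (k + 1) * a) := by
    intro ω
    have e1 : ∀ a : Fin (q k), F (ω + Pi.single k a) = ee (ξ * (X q ω - tm q ω k)) *
        ee (ξ / nn q (k + 1) * (((ω k + a : Fin (q k)) : ℕ) : ℝ)) := by
      intro a
      rw [hF]
      simp only
      rw [X_add, ← ee_add]
      congr 1
      ring
    simp_rw [e1]
    rw [← mul_sum]
    congr 1
    rw [Finset.sum_range]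
    exact Fintype.sum_equiv (Equiv.addLeft (ω k)) _ _ (fun a => rfl)
  have hy : |ξ / nn q (k + 1)| ≤ 1 / 2 := by
    rw [abs_div, abs_of_pos hn, div_le_iff₀ hn]
    linarith
  have hy0 : ξ / nn q (k + 1) ≠ 0 := div_ne_zero h0 hn.ne'
  have h4 : ‖(q k : ℂ) * hat q ξ‖ ≤ 1 / (2 * |ξ / nn q (k + 1)|) := by
    rw [h2]
    refine (norm_integral_le_integral_norm _).trans ?_
    have : ∀ ω : Om q, ‖∑ a : Fin (q k), F (ω + Pi.single k a)‖ ≤ 1 / (2 * |ξ / nn q (k + 1)|) := by
      intro ω
      rw [h3, norm_mul, ee_norm, one_mul]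
      exact geom _ hy hy0 _
    calc ∫ ω, ‖∑ a : Fin (q k), F (ω + Pi.single k a)‖ ∂(P q)
        ≤ ∫ ω, 1 / (2 * |ξ / nn q (k + 1)|) ∂(P q) := by
          refine integral_mono_of_nonneg (Eventually.of_forall fun ω => norm_nonneg _)
            (integrable_const _) (Eventually.of_forall this)
      _ = _ := by simp
  rw [norm_mul, Complex.norm_natCast] at h4
  have h5 : 0 < |ξ| := abs_pos.2 h0
  rw [abs_div, abs_of_pos hn] at h4
  rw [le_div_iff₀ h5]
  have h6 : 1 / (2 * (|ξ| / (nn q (k + 1) : ℝ))) = nn q k * q k / |ξ| := by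
    rw [nn_succ]
    field_simp
  rw [h6, le_div_iff₀ h5] at h4
  have h7 : q k * (‖hat q ξ‖ * |ξ|) ≤ q k * nn q k := by nlinarith
  exact le_of_mul_le_mul_left h7 hq0

end Pool.Agent.H23.NU
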