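import Pool.Agent.H23.NU.Del
import Pool.Graph.R_pool_sql_team_seeded_ab47071d.TH723.BR.Main

set_option autoImplicit false
set_option linter.unusedSectionVars false
set_option linter.unusedVariables false
set_option linter.deprecated false

/-!
# The closed set of type H, its Hausdorff measure and its normal points
-/

namespace Pool.Agent.H23.NU

open MeasureTheory Filter Topology
open Pool.Agent.H493R3 (ee ee_norm ee_add ee_neg ee_int block_freq)
open Pool.Agent.TH723.BR (nd HS Dns uniqueness nd_le HS_closed)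
open Pool.Agent.TH275.UQ (S ex)
open scoped ENNReal

variable (q : ℕ → ℕ) [hq : ∀ k, NeZero (q k)]

/-- the closed set of type H: all `x` in `[0, 1]` for which `n_k x`, `k ≥ 1`, are at distance at
least `1/4` from `3/4` modulo one, that is, in `[0, 1/2]` modulo one -/
def KK : Set ℝ := HS (fun k => nn q (k + 1)) (3 / 4) (1 / 4) 0 ∩ Set.Icc 0 1

lemma KK_closed : IsClosed (KK q) := (HS_closed _ _ _ _).inter isClosed_Icc

lemma X_mem (ω : Om q) : X q ω ∈ KK q := by
  constructor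
  · intro k _
    obtain ⟨t, ht0, ht1, ht⟩ := X_eq' q ω (k + 1)
    have hn := nn_posR q (k + 1)
    have e : (nn q (k + 1) : ℝ) * X q ω = M q ω (k + 1) + nn q (k + 1) * t := by
      rw [ht]; field_simp
    set s : ℝ := nn q (k + 1) * t with hs
    have hs0 : 0 ≤ s := by positivity
    have hs1 : s ≤ 1 / 2 := by
      calc s ≤ nn q (k + 1) * (1 / (2 * nn q (k + 1))) := by rw [hs]; gcongr
        _ = 1 / 2 := by field_simp
    show 1 / 4 ≤ nd _
    unfold Pool.Agent.TH723.BR.nd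
    rw [e]
    set z := round ((M q ω (k + 1) : ℝ) + s - 3 / 4) with hz
    rcases le_or_gt ((M q ω (k + 1) : ℤ) - z) 0 with h | h
    · have h' : ((M q ω (k + 1) : ℝ) - z) ≤ 0 := by exact_mod_cast h
      rw [abs_of_nonpos (by linarith)]
      linarith
    · have h' : (1 : ℝ) ≤ (M q ω (k + 1) : ℝ) - z := by exact_mod_cast h
      rw [abs_of_nonneg (by linarith)]
      linarith
  · obtain ⟨t, ht0, ht1, ht⟩ := X_eq' q ω 0
    simp only [M, nn, Nat.cast_zero, Nat.cast_one, zero_div, zero_add, mul_one] at ht ht1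
    rw [ht]
    constructor <;> linarith

lemma KK_uniq (c : ℤ → ℂ)
    (H : ∀ x : ℝ, (∀ m : ℤ, x + (m:ℝ) ∉ KK q) →
      Tendsto (fun N : ℕ => ∑ n ∈ Finset.Icc (-(N:ℤ)) (N:ℤ),
        c n * Complex.exp (2 * (Real.pi:ℂ) * Complex.I * (n:ℂ) * (x:ℂ))) atTop (𝓝 0)) :
    ∀ n : ℤ, c n = 0 := by
  intro l
  have ht : Tendsto (fun k => nn q (k + 1)) atTop atTop := by
    refine tendsto_atTop_mono (fun k => ?_) (tendsto_id (α := ℕ))
    have h1 := two_pow_le_nn q (k + 1)
    have h2 : k + 1 < 2 ^ (k + 1) := Nat.lt_two_pow_self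
    show k ≤ _
    omega
  refine uniqueness (ι := Unit) (fun _ k => nn q (k + 1)) (fun _ => ht) c (fun x hx => ?_) l
  refine H x fun m hm => ?_
  obtain ⟨k, -, hk⟩ := hx () (3 / 4) (1 / 4) (by norm_num) 0
  have h1 := hm.1 k (Nat.zero_le _)
  have h2 := nd_le ((nn q (k + 1) : ℝ) * (x + m) - 3 / 4)
    (round ((nn q (k + 1) : ℝ) * x - 3 / 4) + nn q (k + 1) * m)
  have h3 : (nn q (k + 1) : ℝ) * (x + m) - 3 / 4 -
      ((round ((nn q (k + 1) : ℝ) * x - 3 / 4) + nn q (k + 1) * m : ℤ) : ℝ) =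
      (nn q (k + 1) : ℝ) * x - 3 / 4 - round ((nn q (k + 1) : ℝ) * x - 3 / 4) := by
    push_cast
    ring
  rw [h3] at h2
  unfold Pool.Agent.TH723.BR.nd at hk h1 h2
  linarith

lemma small_ball (φ : ℝ → ℝ) (hφ : ∀ k, ∀ t : ℝ, 0 < t → t < 1 / q k → 2 ^ (k + 2) * t ≤ φ t)
    (x t : ℝ) (ht : 0 < t) (ht1 : t < 1 / nn q 1) :
    P q {ω | X q ω ∈ Set.Icc (x - t) (x + t)} ≤ ENNReal.ofReal (4 * φ t) := by
  classical
  have hex : ∃ k, 1 / (nn q k : ℝ) ≤ t := by
    obtain ⟨k, hk⟩ := exists_pow_lt_of_lt_one ht (by norm_num : (1 / 2 : ℝ) < 1)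
    refine ⟨k, le_trans ?_ hk.le⟩
    rw [one_div_pow]
    have : (2 : ℝ) ^ k ≤ nn q k := by exact_mod_cast two_pow_le_nn q k
    gcongr
  have h1 := Nat.find_spec hex
  set k := Nat.find hex with hk
  have hk2 : 2 ≤ k := by
    by_contra hc
    have h01 : k = 0 ∨ k = 1 := by omega
    rcases h01 with h0 | h0
    · rw [h0] at h1
      have h3 : 1 / (nn q 1 : ℝ) ≤ 1 / nn q 0 := by
        have : (nn q 0 : ℝ) ≤ nn q 1 := by exact_mod_cast nn_mono q (Nat.zero_le 1)
        have := nn_posR q 0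
        gcongr
      linarith
    · rw [h0] at h1
      linarith
  have h2 : t < 1 / (nn q (k - 1) : ℝ) := by
    by_contra hc
    push Not at hc
    exact Nat.find_min hex (m := k - 1) (by omega) hc
  have h3 : (q (k - 2) : ℝ) ≤ nn q (k - 1) := by
    have := q_le_nn q (k - 2)
    rw [show k - 2 + 1 = k - 1 by omega] at this
    exact_mod_cast this
  have h4 : t < 1 / (q (k - 2) : ℝ) := by
    refine lt_of_lt_of_le h2 ?_
    have : (0 : ℝ) < q (k - 2) := by exact_mod_cast q_pos q (k - 2)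
    gcongr
  have h5 := hφ (k - 2) t ht h4
  rw [show k - 2 + 2 = k by omega] at h5
  refine (mass q k x t h1).trans (ENNReal.ofReal_le_ofReal ?_)
  linarith

/-- **positive Hausdorff measure** -/
theorem haus_pos (φ : ℝ → ℝ) (hφ0 : φ 0 = 0) (hc : Tendsto φ (𝓝[>] (0:ℝ)) (𝓝 0))
    (hφ : ∀ k, ∀ t : ℝ, 0 < t → t < 1 / q k → 2 ^ (k + 2) * t ≤ φ t)
    (E : Set ℝ) (hE : ∀ᵐ ω ∂(P q), X q ω ∈ E) :
    0 < Measure.mkMetric (fun r : ℝ≥0∞ => ENNReal.ofReal (φ r.toReal)) E := by
  have hn1 := nn_posR q 1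
  set ν : Measure ℝ := (4 : ℝ≥0∞)⁻¹ • (P q).map (X q) with hν
  have hball : ∀ (s : Set ℝ) (x t : ℝ), 0 < t → t < 1 / nn q 1 → s ⊆ Set.Icc (x - t) (x + t) →
      ν s ≤ ENNReal.ofReal (φ t) := by
    intro s x t ht ht1 hs
    rw [hν, Measure.smul_apply, smul_eq_mul]
    have h1 : (P q).map (X q) s ≤ ENNReal.ofReal (4 * φ t) := by
      refine (measure_mono hs).trans ?_
      rw [Measure.map_apply (X_meas q) measurableSet_Icc]
      exact small_ball q φ hφ x t ht ht1
    calc (4 : ℝ≥0∞)⁻¹ * (P q).map (X q) s ≤ (4 : ℝ≥0∞)⁻¹ * ENNReal.ofReal (4 * φ t) := by gcongr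
      _ = ENNReal.ofReal (φ t) := by
          rw [ENNReal.ofReal_mul (by norm_num), ← mul_assoc]
          have : ENNReal.ofReal 4 = 4 := by simp
          rw [this, ENNReal.inv_mul_cancel (by norm_num) (by norm_num), one_mul]
  have hle : ν ≤ Measure.mkMetric (fun r : ℝ≥0∞ => ENNReal.ofReal (φ r.toReal)) := by
    refine Measure.le_mkMetric _ ν (ENNReal.ofReal (1 / (2 * nn q 1))) (by positivity) ?_
    intro s hs
    rcases s.eq_empty_or_nonempty with rfl | ⟨x0, hx0⟩
    · simp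
    have hfin : Metric.ediam s ≠ ⊤ := ne_top_of_le_ne_top ENNReal.ofReal_ne_top hs
    set r := (Metric.ediam s).toReal with hr
    have hr0 : 0 ≤ r := ENNReal.toReal_nonneg
    have hr1 : r ≤ 1 / (2 * nn q 1) := ENNReal.toReal_le_of_le_ofReal (by positivity) hs
    have hr2 : r < 1 / nn q 1 := by
      refine lt_of_le_of_lt hr1 ?_
      gcongr
      linarith
    have hsub : s ⊆ Set.Icc (x0 - r) (x0 + r) := by
      intro y hy
      have h1 : edist y x0 ≤ Metric.ediam s := Metric.edist_le_ediam_of_mem hy hx0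
      have h2 : dist y x0 ≤ r := by
        rw [dist_edist, hr]
        exact ENNReal.toReal_mono hfin h1
      rw [Real.dist_eq, abs_le] at h2
      constructor <;> linarith [h2.1, h2.2]
    rcases hr0.eq_or_lt with h0 | h0
    · have h1 : ∀ᶠ t in 𝓝[>] (0:ℝ), ν s ≤ ENNReal.ofReal (φ t) := by
        have h2 : Set.Ioo (0:ℝ) (1 / nn q 1) ∈ 𝓝[>] (0:ℝ) := Ioo_mem_nhdsGT (by positivity)
        filter_upwards [h2] with t ht
        refine hball s x0 t ht.1 ht.2 (hsub.trans ?_)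
        rw [← h0]
        intro y hy
        constructor
        · linarith [hy.1, ht.1]
        · linarith [hy.2, ht.1]
      have h3 : Tendsto (fun t => ENNReal.ofReal (φ t)) (𝓝[>] (0:ℝ)) (𝓝 (ENNReal.ofReal 0)) :=
        (ENNReal.continuous_ofReal.tendsto 0).comp hc
      have h4 := ge_of_tendsto h3 h1
      rw [ENNReal.ofReal_zero] at h4
      exact h4.trans (by positivity)
    · exact hball s x0 r h0 hr2 hsub
  refine lt_of_lt_of_le ?_ (Measure.le_iff'.1 hle E)
  rw [hν, Measure.smul_apply, smul_eq_mul]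
  have h1 : 1 ≤ (P q).map (X q) E := by
    refine le_trans ?_ (Measure.le_map_apply (X_meas q).aemeasurable E)
    have h2 : P q ((X q ⁻¹' E)ᶜ) = 0 := hE
    have h3 : P q Set.univ ≤ P q (X q ⁻¹' E) + P q ((X q ⁻¹' E)ᶜ) := by
      rw [← Set.union_compl_self (X q ⁻¹' E)]
      exact measure_union_le _ _
    rw [h2, add_zero, measure_univ] at h3
    exact h3
  refine ENNReal.mul_pos (by simp) ?_
  exact (lt_of_lt_of_le zero_lt_one h1).ne'

/-- almost all points are absolutely normal -/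
theorem normal_ae (hG : Gr q) : ∀ᵐ ω ∂(P q), ∀ b : ℕ, 2 ≤ b → ∀ k : ℕ, ∀ w : Fin k → ℤ,
    (∀ j : Fin k, 0 ≤ w j ∧ w j < (b:ℤ)) →
    Tendsto (fun N : ℕ =>
      ((((Finset.range N).filter (fun i : ℕ =>
        ∀ j : Fin k, ⌊X q ω * (b:ℝ) ^ (i + j.val + 1)⌋ % (b:ℤ) = w j)).card : ℝ) / (N:ℝ)))
      atTop (𝓝 (1 / (b:ℝ) ^ k)) := by
  filter_upwards [weyl_ae q hG] with ω hω b hb k w hw
  have h1 := block_freq b hb (X q ω) (fun h hh => hω b hb h hh) k
    (fun j => ⟨(w j).toNat, by have := hw j; omega⟩)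
  refine h1.congr fun N => ?_
  congr 3
  apply Finset.filter_congr
  intro i _
  refine forall_congr' fun j => ?_
  rw [show i + 1 + (j : ℕ) = i + j.val + 1 by ring]
  have : ((((⟨(w j).toNat, by have := hw j; omega⟩ : Fin b) : ℕ) : ℤ)) = w j := by
    simp only
    exact Int.toNat_of_nonneg (hw j).1
  rw [this]

end Pool.Agent.H23.NU
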